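import Pool.Agent.K7.H66.TD.Base

set_option autoImplicit false

/-!
# Job HF, part 1: combinatorial pieces
-/

namespace Pool.Agent.K7.H57.TD

open Finset Pool.Agent.K7.H66.TD

/-- the words with a large offset -/
theorem bad1 (hG : StG) {h k2 b : ℕ} (hb : 2 ^ (k2 + b) ≤ 3 ^ h) :
    (((range (2 ^ k2)).filter (fun x => 3 ^ h ≤ rr k2 x)).card : ℝ) * Real.sqrt (2 ^ b) ≤ 11 * 2 ^ k2 := by
  refine le_trans (mul_le_mul_of_nonneg_right ?_ (Real.sqrt_nonneg _)) (hG k2 (2 ^ b) (by positivity))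
  rw [Nat.cast_le]
  refine Finset.card_le_card fun x hx => ?_
  rw [Finset.mem_filter] at hx ⊢
  refine ⟨hx.1, ?_⟩
  have h1 : 2 ^ b * 2 ^ k2 ≤ rr k2 x := by
    rw [← pow_add, add_comm]
    exact hb.trans hx.2
  exact_mod_cast h1

theorem card_fiber (k2 : ℕ) (P : ℕ → Prop) [DecidablePred P] :
    (((range (2 ^ k2)).filter (fun x => P (ones k2 x))).card : ℝ) =
      ∑ j ∈ (range (k2 + 1)).filter P, (k2.choose j : ℝ) := by
  rw [Finset.card_eq_sum_card_fiberwise (f := ones k2) (t := (range (k2 + 1)).filter P)]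
  · push_cast
    refine Finset.sum_congr rfl fun j hj => ?_
    rw [Finset.mem_filter] at hj
    rw [← card_Wd, Wd, Finset.filter_filter]
    congr 2
    refine Finset.filter_congr fun x _ => ?_
    constructor
    · exact fun h => h.2
    · exact fun h => ⟨h ▸ hj.2, h⟩
  · intro x hx
    rw [Finset.mem_coe, Finset.mem_filter] at hx
    rw [Finset.mem_coe, Finset.mem_filter, Finset.mem_range]
    exact ⟨by have := ones_le k2 x; omega, hx.2⟩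

/-- the words with a deviation -/
theorem bad2 (hT : StTail) {k2 : ℕ} (hk : 1 ≤ k2) :
    (((range (2 ^ k2)).filter (fun x => 2 * Real.sqrt (k2 * Real.log k2) <
      |2 * (ones k2 x : ℝ) - k2|)).card : ℝ) ≤ 2 * 2 ^ k2 / (k2 : ℝ) ^ 2 := by
  classical
  have hk' : (1 : ℝ) ≤ k2 := by exact_mod_cast hk
  have hlog : 0 ≤ Real.log k2 := Real.log_nonneg hk'
  rw [card_fiber k2 (fun j => 2 * Real.sqrt (k2 * Real.log k2) < |2 * (j : ℝ) - k2|)]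
  have h1 := hT k2 (2 * Real.sqrt (k2 * Real.log k2)) (by positivity)
  have h2 : -(2 * Real.sqrt (k2 * Real.log k2)) ^ 2 / (2 * k2) = -(2 * Real.log k2) := by
    rw [mul_pow, Real.sq_sqrt (by positivity)]
    field_simp
    try ring
  have h3 : Real.exp (-(2 * Real.log k2)) = ((k2 : ℝ) ^ 2)⁻¹ := by
    rw [Real.exp_neg, two_mul, Real.exp_add, Real.exp_log (by positivity), sq]
  rw [h2, h3, ← div_eq_mul_inv] at h1
  refine le_trans (Finset.sum_le_sum_of_subset_of_nonneg ?_ fun _ _ _ => by positivity) (h1.trans ?_)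
  · intro j hj
    rw [Finset.mem_filter] at hj ⊢
    exact ⟨hj.1, hj.2.le⟩
  · exact le_rfl

theorem card_Sset (k2 : ℕ) (l : ℝ) (hl : 0 ≤ l) :
    (((range (k2 + 1)).filter (fun s : ℕ => |2 * (s : ℝ) - k2| ≤ l)).card : ℝ) ≤ l + 1 := by
  have h1 : (range (k2 + 1)).filter (fun s : ℕ => |2 * (s : ℝ) - k2| ≤ l) ⊆
      Finset.Icc ⌈((k2 : ℝ) - l) / 2⌉₊ ⌊((k2 : ℝ) + l) / 2⌋₊ := by
    intro s hs
    rw [Finset.mem_filter, abs_le] at hs
    rw [Finset.mem_Icc, Nat.ceil_le, Nat.le_floor_iff (by positivity)]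
    constructor <;> linarith
  refine le_trans (Nat.cast_le.2 (Finset.card_le_card h1)) ?_
  rw [Nat.card_Icc]
  rcases le_or_gt (⌊((k2 : ℝ) + l) / 2⌋₊ + 1) ⌈((k2 : ℝ) - l) / 2⌉₊ with h2 | h2
  · rw [Nat.sub_eq_zero_of_le h2]
    simp only [Nat.cast_zero]
    linarith
  · rw [Nat.cast_sub h2.le]
    have h3 : (⌊((k2 : ℝ) + l) / 2⌋₊ : ℝ) ≤ ((k2 : ℝ) + l) / 2 := Nat.floor_le (by positivity)
    have h4 : ((k2 : ℝ) - l) / 2 ≤ (⌈((k2 : ℝ) - l) / 2⌉₊ : ℝ) := Nat.le_ceil _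
    push_cast
    linarith

theorem norm_inner (hC : StCen) {k1 : ℕ} (hk : 1 ≤ k1) (j : ℕ) (f : ℕ → ℂ) (hf : ∀ x, ‖f x‖ ≤ 1) :
    ‖∑ x ∈ Wd k1 j, f x‖ ≤ 2 * 2 ^ k1 / Real.sqrt k1 := by
  refine (norm_sum_le _ _).trans ((Finset.sum_le_sum fun x _ => hf x).trans ?_)
  rw [Finset.sum_const, nsmul_eq_mul, mul_one, card_Wd]
  exact hC k1 j hk

/-- every element has an order -/
theorem exists_ord (h : ℕ) (a : ZMod (3 ^ h)) : ∃ q, HasOrd h q a := by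
  by_cases ha : a = 0
  · refine ⟨0, Nat.zero_le _, 1, ?_⟩
    rw [Nat.sub_zero, ha]
    have h1 : ((3 ^ h : ℕ) : ZMod (3 ^ h)) = 0 := ZMod.natCast_self _
    push_cast at h1
    rw [h1, zero_mul]
  · obtain ⟨v, w, hw, hvw⟩ := Nat.exists_eq_pow_mul_and_not_dvd (n := a.val)
      (fun h0 => ha ((ZMod.val_eq_zero a).1 h0)) 3 (by norm_num)
    have hv : v ≤ h := by
      by_contra hv
      have h1 : 3 ^ h ≤ a.val := by
        rw [hvw]
        have h2 : w ≠ 0 := fun h0 => hw (h0 ▸ dvd_zero 3)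
        calc 3 ^ h ≤ 3 ^ v := Nat.pow_le_pow_right (by norm_num) (by omega)
          _ ≤ 3 ^ v * w := Nat.le_mul_of_pos_right _ (Nat.pos_of_ne_zero h2)
      exact absurd (ZMod.val_lt a) (by omega)
    have hu : IsUnit (w : ZMod (3 ^ h)) := by
      rw [ZMod.isUnit_iff_coprime]
      exact Nat.Coprime.pow_right h (((Nat.Prime.coprime_iff_not_dvd (by norm_num)).2 hw).symm)
    obtain ⟨u, hu⟩ := hu
    refine ⟨h - v, Nat.sub_le _ _, u, ?_⟩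
    rw [hu, Nat.sub_sub_self hv, ← ZMod.natCast_zmod_val a, hvw]
    push_cast
    ring

theorem isUnit_h2 (h : ℕ) : IsUnit (h2 h) := IsUnit.of_mul_eq_one 2 (by rw [mul_comm, h2_mul])

/-- the order of the multiplied character -/
theorem ord_mul {h q s k2 : ℕ} {a : ZMod (3 ^ h)} (ha : HasOrd h q a) (hs : s ≤ q) :
    HasOrd h (q - s) (3 ^ s * a * h2 h ^ k2) := by
  obtain ⟨hq, u, hu⟩ := ha
  obtain ⟨w, hw⟩ := isUnit_h2 h
  refine ⟨(Nat.sub_le _ _).trans hq, u * w ^ k2, ?_⟩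
  rw [hu, ← hw, Units.val_mul, Units.val_pow_eq_pow_val, show h - (q - s) = s + (h - q) from by omega,
    pow_add]
  ring

/-- The order of a frequency with a nonzero coefficient. -/
theorem ord_gt {h h1 q : ℕ} (hh : h1 ≤ h) {φ : ZMod (3 ^ h) → ℂ}
    (hφ : ∀ a : ZMod (3 ^ h), (∑ Y, φ Y * ee h (-(3 ^ (h - h1) * a * Y))) = 0) {a : ZMod (3 ^ h)}
    (ha : HasOrd h q a) (hne : (∑ Y, φ Y * ee h (-(a * Y))) ≠ 0) : h1 < q := by
  by_contra hq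
  push Not at hq
  obtain ⟨hqh, u, hu⟩ := ha
  refine hne ?_
  rw [← hφ (3 ^ (h1 - q) * u)]
  refine Finset.sum_congr rfl fun Y _ => ?_
  congr 3
  rw [hu, show h - q = (h - h1) + (h1 - q) from by omega, pow_add]
  ring

/-- The contribution of the good words with `s` ones. -/
theorem good {C : ℝ} (hW : ∀ T0 : ℝ, C ≤ T0 → ∀ m : ℕ, 60 * (m : ℝ) ≤ T0 →
      ∀ (n q t j : ℕ) (a : ZMod (3 ^ n)), HasOrd n q a → 1 ≤ q → q ≤ j + m →
      ‖Amp n t j a‖ ≤ (7 * T0 / q) ^ (0.34 : ℝ) * (t.choose j : ℝ) + 2 ^ t * (5 * Real.exp (-T0 / 500)))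
    (hL : StL) (hC : StCen) {T0 : ℝ} (hT0 : C ≤ T0) (hT0' : 0 < T0) {h h1 k1 k2 S s m b : ℕ}
    (hm : 60 * (m : ℝ) ≤ T0) (hh : h1 ≤ h) (hhS : h ≤ S + m) (hs : s ≤ S) (hk1 : 1 ≤ k1)
    (hk2 : 1 ≤ k2)
    (hh0 : 1 ≤ h) (hs1 : (h : ℝ) ≤ 20 * ((h1 : ℝ) - s)) (hb : 3 ^ h ≤ 2 ^ (k2 + b + 1))
    (ρ : ZMod (3 ^ h)) (φ : ZMod (3 ^ h) → ℂ) (hφ1 : ∀ Y, ‖φ Y‖ ≤ 1)
    (hφ : ∀ a : ZMod (3 ^ h), (∑ Y, φ Y * ee h (-(3 ^ (h - h1) * a * Y))) = 0)
    (X : Finset ℕ) (hX : X ⊆ Wd k2 s) (hX' : ∀ x ∈ X, rr k2 x < 3 ^ h) :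
    ‖∑ x ∈ X, ∑ x1 ∈ Wd k1 (S - s), φ ((3 ^ s * cw h k1 ρ x1 + (rr k2 x : ZMod (3 ^ h))) * h2 h ^ k2)‖ ≤
      Real.sqrt (2 * 2 ^ k2 / Real.sqrt k2 * 2 ^ (k2 + b + 1)) *
        ((140 * T0 / h) ^ (0.34 : ℝ) * (2 * 2 ^ k1 / Real.sqrt k1) +
          2 ^ k1 * (5 * Real.exp (-T0 / 500))) := by
  have hh0' : (1 : ℝ) ≤ h := by exact_mod_cast hh0
  have h1 := hL h k1 k2 (S - s) s ρ φ X ((140 * T0 / h) ^ (0.34 : ℝ) * (2 * 2 ^ k1 / Real.sqrt k1) +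
          2 ^ k1 * (5 * Real.exp (-T0 / 500))) hφ1 (by positivity) ?_ ?_
  · refine h1.trans (mul_le_mul_of_nonneg_right (Real.sqrt_le_sqrt ?_) (by positivity))
    have h2 : (X.card : ℝ) ≤ 2 * 2 ^ k2 / Real.sqrt k2 := by
      refine le_trans (Nat.cast_le.2 (Finset.card_le_card hX)) ?_
      rw [card_Wd]
      exact hC k2 s hk2
    have h3 : (3 : ℝ) ^ h ≤ 2 ^ (k2 + b + 1) := by exact_mod_cast hb
    gcongr
  · intro a ha
    obtain ⟨q, hq⟩ := exists_ord h a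
    have hq1 := ord_gt hh hφ hq ha
    have hqh := hq.1
    have h2 : (s : ℝ) < h1 := by linarith
    have h3 : s < h1 := by exact_mod_cast h2
    have h4 := hW T0 hT0 m hm h (q - s) k1 (S - s) _ (ord_mul (k2 := k2) hq (by omega : s ≤ q))
      (by omega) (by omega)
    refine h4.trans ?_
    have h5 : (h : ℝ) / 20 ≤ ((q - s : ℕ) : ℝ) := by
      rw [Nat.cast_sub (by omega)]
      have : (h1 : ℝ) ≤ q := by exact_mod_cast hq1.le
      linarith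
    have h6 : (0 : ℝ) < ((q - s : ℕ) : ℝ) := lt_of_lt_of_le (by positivity) h5
    have h7 : 7 * T0 / ((q - s : ℕ) : ℝ) ≤ 140 * T0 / h := by
      rw [div_le_div_iff₀ h6 (by positivity)]
      nlinarith
    have h8 : (k1.choose (S - s) : ℝ) ≤ 2 * 2 ^ k1 / Real.sqrt k1 := hC k1 (S - s) hk1
    have h9 : (7 * T0 / ((q - s : ℕ) : ℝ)) ^ (0.34 : ℝ) ≤ (140 * T0 / h) ^ (0.34 : ℝ) :=
      Real.rpow_le_rpow (by positivity) h7 (by norm_num)
    have h10 : (0 : ℝ) ≤ (140 * T0 / h) ^ (0.34 : ℝ) := by positivity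
    gcongr
  · intro x hx y hy hxy
    rw [Finset.mem_coe] at hx hy
    have h2 : rr k2 x = rr k2 y := by
      have h3 := congrArg ZMod.val hxy
      simp only [] at h3
      rwa [ZMod.val_natCast, ZMod.val_natCast, Nat.mod_eq_of_lt (hX' x hx),
        Nat.mod_eq_of_lt (hX' y hy)] at h3
    exact rr_inj k2 s (hX hx) (hX hy) h2

end Pool.Agent.K7.H57.TD
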