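import Pool.Agent.K7.H57.TD.HF1

set_option autoImplicit false

/-!
# Job HF, part 2: the assembly
-/

namespace Pool.Agent.K7.H57.TD

open Finset Pool.Agent.K7.H66.TD

/-- the parameters `b`, `k2` -/
theorem params (h : ℕ) (hh : 1 ≤ h) : ∃ b k2 : ℕ, 2 ^ (k2 + b) ≤ 3 ^ h ∧ 3 ^ h ≤ 2 ^ (k2 + b + 1) ∧
    (2 : ℝ) ^ b ≤ (h : ℝ) ^ (1 / 25 : ℝ) ∧ (h : ℝ) ^ (1 / 25 : ℝ) ≤ 2 ^ (b + 1) ∧ 5 * k2 ≤ 8 * h ∧
    h ≤ 2 * k2 ∧ 1 ≤ k2 := by
  have hN1 : 2 ^ (Nat.log 2 (3 ^ h)) ≤ 3 ^ h := Nat.pow_log_le_self 2 (by positivity)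
  have hN2 : 3 ^ h < 2 ^ (Nat.log 2 (3 ^ h) + 1) := Nat.lt_pow_succ_log_self (by norm_num) _
  generalize Nat.log 2 (3 ^ h) = N at hN1 hN2
  have hN3 : h < N + 1 := by
    rw [← Nat.pow_lt_pow_iff_right (a := 2) (by norm_num)]
    exact lt_of_le_of_lt (Nat.pow_le_pow_left (by norm_num) h) hN2
  have hN4 : 5 * N ≤ 8 * h := by
    rw [← Nat.pow_le_pow_iff_right (a := 2) (by norm_num)]
    calc 2 ^ (5 * N) = (2 ^ N) ^ 5 := by rw [mul_comm, pow_mul]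
      _ ≤ (3 ^ h) ^ 5 := Nat.pow_le_pow_left hN1 5
      _ = (3 ^ 5) ^ h := by rw [← pow_mul, mul_comm, pow_mul]
      _ ≤ (2 ^ 8) ^ h := Nat.pow_le_pow_left (by norm_num) h
      _ = 2 ^ (8 * h) := by rw [← pow_mul]
  have hL1 : 2 ^ (Nat.log 2 h) ≤ h := Nat.pow_log_le_self 2 (by omega)
  have hL2 : h < 2 ^ (Nat.log 2 h + 1) := Nat.lt_pow_succ_log_self (by norm_num) _
  have hL3 : Nat.log 2 h ≤ h := Nat.log_le_self 2 h
  generalize Nat.log 2 h = L at hL1 hL2 hL3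
  have hh' : (0 : ℝ) ≤ h := Nat.cast_nonneg h
  have hpow : ∀ x : ℝ, 0 ≤ x → (x ^ 25) ^ (1 / 25 : ℝ) = x := by
    intro x hx
    have := Real.pow_rpow_inv_natCast (n := 25) hx (by norm_num)
    rw [show (1 / 25 : ℝ) = ((25 : ℕ) : ℝ)⁻¹ by norm_num]
    exact this
  refine ⟨L / 25, N - L / 25, ?_, ?_, ?_, ?_, ?_, ?_, ?_⟩
  · rw [Nat.sub_add_cancel (by omega)]
    exact hN1
  · rw [Nat.sub_add_cancel (by omega)]
    exact hN2.le
  · rw [← hpow ((2 : ℝ) ^ (L / 25)) (by positivity)]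
    refine Real.rpow_le_rpow (by positivity) ?_ (by norm_num)
    rw [← pow_mul]
    have h1 : 2 ^ (L / 25 * 25) ≤ h := le_trans (Nat.pow_le_pow_right (by norm_num) (by omega)) hL1
    exact_mod_cast h1
  · rw [← hpow ((2 : ℝ) ^ (L / 25 + 1)) (by positivity)]
    refine Real.rpow_le_rpow (by positivity) ?_ (by norm_num)
    rw [← pow_mul]
    have h1 : h ≤ 2 ^ ((L / 25 + 1) * 25) :=
      le_trans hL2.le (Nat.pow_le_pow_right (by norm_num) (by omega))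
    exact_mod_cast h1
  · omega
  · omega
  · omega

/-- the left hand side of the closing inequality -/
noncomputable def LHS (k1 k2 b h : ℕ) (T0 : ℝ) : ℝ :=
  (11 * 2 ^ k2 / Real.sqrt (2 ^ b) + 2 * 2 ^ k2 / (k2 : ℝ) ^ 2) * (2 * 2 ^ k1 / Real.sqrt k1) +
    (2 * Real.sqrt (k2 * Real.log k2) + 1) * (Real.sqrt (2 * 2 ^ k2 / Real.sqrt k2 * 2 ^ (k2 + b + 1)) *
      ((140 * T0 / h) ^ (0.34 : ℝ) * (2 * 2 ^ k1 / Real.sqrt k1) +
        2 ^ k1 * (5 * Real.exp (-T0 / 500))))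

theorem assemble {C : ℝ} (hW : ∀ T0 : ℝ, C ≤ T0 → ∀ m : ℕ, 60 * (m : ℝ) ≤ T0 →
      ∀ (n q t j : ℕ) (a : ZMod (3 ^ n)), HasOrd n q a → 1 ≤ q → q ≤ j + m →
      ‖Amp n t j a‖ ≤ (7 * T0 / q) ^ (0.34 : ℝ) * (t.choose j : ℝ) + 2 ^ t * (5 * Real.exp (-T0 / 500)))
    (hG : StG) (hL : StL) (hT : StTail) (hC : StCen) {T0 : ℝ} (hT0 : C ≤ T0) (hT0' : 0 < T0)
    {h h1 k1 k2 S m b : ℕ}
    (hm : 60 * (m : ℝ) ≤ T0) (hh : h1 ≤ h) (hhS : h ≤ S + m) (hk1 : 1 ≤ k1)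
    (hk2 : 1 ≤ k2) (hh0 : 1 ≤ h)
    (hs1 : ∀ s : ℕ, |2 * (s : ℝ) - k2| ≤ 2 * Real.sqrt (k2 * Real.log k2) →
      (h : ℝ) ≤ 20 * ((h1 : ℝ) - s)) (hb : 2 ^ (k2 + b) ≤ 3 ^ h) (hb' : 3 ^ h ≤ 2 ^ (k2 + b + 1))
    (ρ : ZMod (3 ^ h)) (φ : ZMod (3 ^ h) → ℂ) (hφ1 : ∀ Y, ‖φ Y‖ ≤ 1)
    (hφ : ∀ a : ZMod (3 ^ h), (∑ Y, φ Y * ee h (-(3 ^ (h - h1) * a * Y))) = 0) :
    ‖∑ x ∈ Wd (k1 + k2) S, φ (cw h (k1 + k2) ρ x)‖ ≤ LHS k1 k2 b h T0 := by
  classical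
  set l : ℝ := 2 * Real.sqrt (k2 * Real.log k2) with hl
  have hl0 : 0 ≤ l := by positivity
  set M0 : ℝ := 2 * 2 ^ k1 / Real.sqrt k1 with hM0
  have hM00 : 0 ≤ M0 := by positivity
  set B : ℝ := Real.sqrt (2 * 2 ^ k2 / Real.sqrt k2 * 2 ^ (k2 + b + 1)) *
      ((140 * T0 / h) ^ (0.34 : ℝ) * (2 * 2 ^ k1 / Real.sqrt k1) +
        2 ^ k1 * (5 * Real.exp (-T0 / 500))) with hB
  have hB0 : 0 ≤ B := by positivity
  set F : ℕ → ℂ := fun x2 => if ones k2 x2 ≤ S then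
      ∑ x1 ∈ Wd k1 (S - ones k2 x2), φ (cw h (k1 + k2) ρ (x1 + 2 ^ k1 * x2)) else 0 with hF
  have hFM : ∀ x, ‖F x‖ ≤ M0 := by
    intro x
    simp only [hF]
    split_ifs with h2
    · exact norm_inner hC hk1 _ _ (fun _ => hφ1 _)
    · simpa using hM00
  have hsplit : ∑ x ∈ Wd (k1 + k2) S, φ (cw h (k1 + k2) ρ x) = ∑ x ∈ range (2 ^ k2), F x :=
    sum_Wd_split k1 k2 S (fun x => φ (cw h (k1 + k2) ρ x))
  rw [hsplit, ← Finset.sum_filter_add_sum_filter_not (range (2 ^ k2)) (fun x => 3 ^ h ≤ rr k2 x) F,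
    ← Finset.sum_filter_add_sum_filter_not ((range (2 ^ k2)).filter (fun x => ¬ 3 ^ h ≤ rr k2 x))
      (fun x => l < |2 * (ones k2 x : ℝ) - k2|) F]
  have hcard : ∀ X : Finset ℕ, ‖∑ x ∈ X, F x‖ ≤ X.card * M0 := by
    intro X
    refine (norm_sum_le _ _).trans ((Finset.sum_le_sum fun x _ => hFM x).trans ?_)
    rw [Finset.sum_const, nsmul_eq_mul]
  have hb1 : ‖∑ x ∈ (range (2 ^ k2)).filter (fun x => 3 ^ h ≤ rr k2 x), F x‖ ≤
      11 * 2 ^ k2 / Real.sqrt (2 ^ b) * M0 := by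
    refine (hcard _).trans (mul_le_mul_of_nonneg_right ?_ hM00)
    rw [le_div_iff₀ (by positivity)]
    exact bad1 hG hb
  have hb2 : ‖∑ x ∈ ((range (2 ^ k2)).filter (fun x => ¬ 3 ^ h ≤ rr k2 x)).filter
      (fun x => l < |2 * (ones k2 x : ℝ) - k2|), F x‖ ≤ 2 * 2 ^ k2 / (k2 : ℝ) ^ 2 * M0 := by
    refine (hcard _).trans (mul_le_mul_of_nonneg_right ?_ hM00)
    refine le_trans (Nat.cast_le.2 (Finset.card_le_card ?_)) (bad2 hT hk2)
    exact Finset.filter_subset_filter _ (Finset.filter_subset _ _)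
  have hb3 : ‖∑ x ∈ ((range (2 ^ k2)).filter (fun x => ¬ 3 ^ h ≤ rr k2 x)).filter
      (fun x => ¬ l < |2 * (ones k2 x : ℝ) - k2|), F x‖ ≤ (l + 1) * B := by
    rw [← Finset.sum_fiberwise_of_maps_to (g := ones k2)
      (t := (range (k2 + 1)).filter (fun s : ℕ => |2 * (s : ℝ) - k2| ≤ l))]
    swap
    · intro x hx
      rw [Finset.mem_filter] at hx ⊢
      exact ⟨Finset.mem_range.2 (by have := ones_le k2 x; omega), not_lt.1 hx.2⟩
    refine (norm_sum_le _ _).trans ((Finset.sum_le_sum (g := fun _ => B) ?_).trans ?_)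
    · intro s hs
      rw [Finset.mem_filter] at hs
      by_cases hsS : s ≤ S
      · have h2 := good hW hL hC hT0 hT0' (k1 := k1) (k2 := k2) (b := b) hm hh hhS hsS hk1 hk2 hh0
          (hs1 s hs.2) hb' ρ φ hφ1 hφ
          ((((range (2 ^ k2)).filter (fun x => ¬ 3 ^ h ≤ rr k2 x)).filter
            (fun x => ¬ l < |2 * (ones k2 x : ℝ) - k2|)).filter (fun x => ones k2 x = s)) ?_ ?_
        · refine le_of_eq_of_le ?_ h2
          congr 1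
          refine Finset.sum_congr rfl fun x hx => ?_
          rw [Finset.mem_filter] at hx
          simp only [hF]
          rw [if_pos (by rw [hx.2]; exact hsS), hx.2]
          refine Finset.sum_congr rfl fun x1 hx1 => ?_
          rw [cw_append h k1 k2 ρ x1 x (mem_Wd.1 hx1).1, hx.2]
        · intro x hx
          rw [Finset.mem_filter, Finset.mem_filter, Finset.mem_filter, Finset.mem_range] at hx
          exact mem_Wd.2 ⟨hx.1.1.1, hx.2⟩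
        · intro x hx
          rw [Finset.mem_filter, Finset.mem_filter, Finset.mem_filter] at hx
          exact not_le.1 hx.1.1.2
      · rw [Finset.sum_eq_zero]
        · simpa using hB0
        · intro x hx
          rw [Finset.mem_filter] at hx
          simp only [hF]
          rw [if_neg]
          rw [hx.2]
          exact hsS
    · rw [Finset.sum_const, nsmul_eq_mul]
      exact mul_le_mul_of_nonneg_right (card_Sset k2 l hl0) hB0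
  refine (norm_add_le _ _).trans ?_
  have h4 := norm_add_le (∑ x ∈ ((range (2 ^ k2)).filter (fun x => ¬ 3 ^ h ≤ rr k2 x)).filter
      (fun x => l < |2 * (ones k2 x : ℝ) - k2|), F x)
      (∑ x ∈ ((range (2 ^ k2)).filter (fun x => ¬ 3 ^ h ≤ rr k2 x)).filter
      (fun x => ¬ l < |2 * (ones k2 x : ℝ) - k2|), F x)
  have h5 : LHS k1 k2 b h T0 = 11 * 2 ^ k2 / Real.sqrt (2 ^ b) * M0 +
      2 * 2 ^ k2 / (k2 : ℝ) ^ 2 * M0 + (l + 1) * B := by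
    rw [LHS, ← hl, ← hM0]
    ring
  rw [h5]
  linarith

/-! ### the estimates for large `k` -/

theorem ev_sqrt (ε : ℝ) (hε : 0 < ε) : ∀ᶠ k : ℕ in Filter.atTop,
    2 * Real.sqrt (k * Real.log k) ≤ ε * k := by
  have h1 : ∀ᶠ x : ℝ in Filter.atTop, ‖Real.log x‖ ≤ (ε / 2) ^ 2 * ‖x‖ :=
    Real.isLittleO_log_id_atTop.def (by positivity)
  have h2 := (tendsto_natCast_atTop_atTop (R := ℝ)).eventually h1
  filter_upwards [h2, Filter.eventually_ge_atTop 1] with k hk hk1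
  have hk1' : (1 : ℝ) ≤ k := by exact_mod_cast hk1
  have hlog : 0 ≤ Real.log k := Real.log_nonneg hk1'
  rw [Real.norm_of_nonneg hlog, Real.norm_of_nonneg (by positivity)] at hk
  have h3 : Real.sqrt (k * Real.log k) ≤ ε / 2 * k := by
    rw [Real.sqrt_le_left (by positivity)]
    nlinarith
  linarith

theorem ev_rpow (ε : ℝ) (hε : 0 < ε) : ∀ᶠ k : ℕ in Filter.atTop,
    (k : ℝ) ^ (1 / 20 : ℝ) ≤ ε * k := by
  have h1 : ∀ᶠ x : ℝ in Filter.atTop, x ^ (-(19 / 20) : ℝ) < ε :=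
    (tendsto_rpow_neg_atTop (by norm_num : (0 : ℝ) < 19 / 20)).eventually_lt_const hε
  have h2 := (tendsto_natCast_atTop_atTop (R := ℝ)).eventually h1
  filter_upwards [h2, Filter.eventually_ge_atTop 1] with k hk hk1
  have hk1' : (0 : ℝ) < k := by exact_mod_cast hk1
  have h3 : (k : ℝ) ^ (1 / 20 : ℝ) = (k : ℝ) ^ (-(19 / 20) : ℝ) * k := by
    rw [← Real.rpow_add_one hk1'.ne']
    norm_num
  rw [h3]
  exact mul_le_mul_of_nonneg_right hk.le hk1'.le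

theorem ev_ge (h0 : ℝ) : ∀ᶠ k : ℕ in Filter.atTop, h0 ≤ (k : ℝ) ^ (1 / 40 : ℝ) := by
  have h1 := (tendsto_rpow_atTop (by norm_num : (0 : ℝ) < 1 / 40)).comp
    (tendsto_natCast_atTop_atTop (R := ℝ))
  exact h1.eventually_ge_atTop h0

/-- the closing inequality, a statement -/
def Closing : Prop := ∀ K1 : ℝ, 0 < K1 → ∃ K : ℝ, 0 < K ∧ ∀ (k1 k2 b h : ℕ) (T0 : ℝ), 1 ≤ k1 → 1 ≤ k2 →
  1 ≤ h → h ≤ k1 + k2 → 3 * (k1 + k2) ≤ 20 * k1 → h ≤ 2 * k2 → 5 * k2 ≤ 8 * h →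
  (2 : ℝ) ^ b ≤ (h : ℝ) ^ (1 / 25 : ℝ) → (h : ℝ) ^ (1 / 25 : ℝ) ≤ 2 ^ (b + 1) → 0 < T0 →
  T0 ≤ K1 * (h : ℝ) ^ (1 / 20 : ℝ) → Real.exp (-T0 / 500) ≤ 1 / ((k1 + k2 : ℕ) : ℝ) →
  LHS k1 k2 b h T0 ≤ K * 2 ^ (k1 + k2) / Real.sqrt ((k1 + k2 : ℕ) : ℝ) * (h : ℝ) ^ (-(1 / 50) : ℝ)

theorem hf_of_closing (hcl : Closing) (hW : StW) (hG : StG) (hL : StL) (hT : StTail) (hC : StCen) :
    StHF := by
  obtain ⟨C, hC0, hW⟩ := hW
  obtain ⟨K, hK, hcl⟩ := hcl (C + 400000 + 120) (by linarith)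
  obtain ⟨n0, hn0⟩ := Filter.eventually_atTop.1 (ev_sqrt (1 / 100) (by norm_num))
  obtain ⟨k0, hk0⟩ := Filter.eventually_atTop.1 ((ev_rpow (1 / 200) (by norm_num)).and
    (ev_ge (2 * n0 + 1)))
  refine ⟨1 / 50, K, max (max n0 k0) 1, by norm_num, hK, ?_⟩
  intro k hk S m h h1 hS hm hhS hkh hh1 hh ρ φ hφ1 hφ
  have hkn0 : n0 ≤ k := le_trans (le_trans (le_max_left _ _) (le_max_left _ _)) hk
  have hkk0 : k0 ≤ k := le_trans (le_trans (le_max_right _ _) (le_max_left _ _)) hk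
  have hk1' : 1 ≤ k := le_trans (le_max_right _ _) hk
  have hkr : (1 : ℝ) ≤ k := by exact_mod_cast hk1'
  have e1 := hn0 k hkn0
  obtain ⟨e2, e3⟩ := hk0 k hkk0
  have hS' := abs_le.1 (hS.trans e1)
  have hm' : (m : ℝ) ≤ 1 / 200 * k := hm.trans e2
  have hhr : (h : ℝ) ≤ S + m := by exact_mod_cast hhS
  have hh51 : (h : ℝ) ≤ 51 / 100 * k := by linarith [hS'.1, hS'.2]
  have hh0 : (2 * n0 + 1 : ℝ) ≤ h := e3.trans hkh
  have hh0' : 2 * n0 + 1 ≤ h := by exact_mod_cast hh0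
  obtain ⟨b, k2, hb, hb', hbl, hbu, h58, h2k, hk2⟩ := params h (by omega)
  have h58' : 5 * (k2 : ℝ) ≤ 8 * h := by exact_mod_cast h58
  have hk2k : (k2 : ℝ) ≤ 816 / 1000 * k := by linarith
  have hk2k' : k2 ≤ k := by
    have : (k2 : ℝ) ≤ k := by linarith
    exact_mod_cast this
  obtain ⟨k1, rfl⟩ : ∃ k1, k = k1 + k2 := ⟨k - k2, by omega⟩
  have hk1r : 3 * ((k1 + k2 : ℕ) : ℝ) ≤ 20 * k1 := by
    push_cast at hk2k ⊢
    linarith
  have hk1n : 3 * (k1 + k2) ≤ 20 * k1 := by exact_mod_cast hk1r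
  have hhk : h ≤ k1 + k2 := by
    have : (h : ℝ) ≤ ((k1 + k2 : ℕ) : ℝ) := by linarith
    exact_mod_cast this
  have hhr1 : (1 : ℝ) ≤ h := by linarith [(Nat.cast_nonneg n0 : (0 : ℝ) ≤ n0)]
  have hp1 : (1 : ℝ) ≤ (h : ℝ) ^ (1 / 20 : ℝ) := Real.one_le_rpow hhr1 (by norm_num)
  -- the choice of `T0`
  set me : ℕ := if h ≤ S then 0 else m with hme
  have hhme : h ≤ S + me := by
    rw [hme]
    split_ifs with h2
    · omega
    · exact hhS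
  have hlogk : 0 ≤ Real.log ((k1 + k2 : ℕ) : ℝ) := Real.log_nonneg hkr
  have hlog : Real.log ((k1 + k2 : ℕ) : ℝ) ≤ 800 * (h : ℝ) ^ (1 / 20 : ℝ) := by
    have h2 : Real.log (((k1 + k2 : ℕ) : ℝ) ^ (1 / 40 : ℝ)) ≤ Real.log h :=
      Real.log_le_log (by positivity) hkh
    rw [Real.log_rpow (by positivity)] at h2
    have h3 := Real.log_le_rpow_div (x := (h : ℝ)) (ε := 1 / 20) (by positivity) (by norm_num)
    rw [div_eq_mul_inv] at h3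
    norm_num at h3 h2 ⊢
    linarith
  have hme60 : 60 * (me : ℝ) ≤ 120 * (h : ℝ) ^ (1 / 20 : ℝ) := by
    rw [hme]
    split_ifs with h2
    · push_cast
      linarith
    · push Not at h2
      have h3 : (S : ℝ) ≤ h := by exact_mod_cast h2.le
      have h4 : ((k1 + k2 : ℕ) : ℝ) ≤ 4 * h := by linarith [hS'.1]
      have h5 : ((k1 + k2 : ℕ) : ℝ) ^ (1 / 20 : ℝ) ≤ (4 * h) ^ (1 / 20 : ℝ) :=
        Real.rpow_le_rpow (by positivity) h4 (by norm_num)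
      rw [Real.mul_rpow (by norm_num) (by positivity)] at h5
      have h6 : (4 : ℝ) ^ (1 / 20 : ℝ) ≤ 2 := by
        calc (4 : ℝ) ^ (1 / 20 : ℝ) ≤ 4 ^ (1 / 2 : ℝ) :=
              Real.rpow_le_rpow_of_exponent_le (by norm_num) (by norm_num)
          _ = 2 := by
            rw [show (4 : ℝ) = 2 ^ (2 : ℕ) by norm_num, ← Real.rpow_natCast, ← Real.rpow_mul (by norm_num)]
            norm_num
      nlinarith
  have hT1 : (C + 500 * Real.log ((k1 + k2 : ℕ) : ℝ) + 60 * me) ≤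
      (C + 400000 + 120) * (h : ℝ) ^ (1 / 20 : ℝ) := by nlinarith
  have hmn : (0 : ℝ) ≤ 60 * (me : ℝ) := by positivity
  have hexp : Real.exp (-(C + 500 * Real.log ((k1 + k2 : ℕ) : ℝ) + 60 * me) / 500) ≤
      1 / ((k1 + k2 : ℕ) : ℝ) := by
    rw [one_div, ← Real.exp_log (by positivity : (0 : ℝ) < ((k1 + k2 : ℕ) : ℝ)), ← Real.exp_neg,
      Real.exp_le_exp, Real.exp_log (by positivity)]
    linarith
  refine le_trans (assemble hW hG hL hT hC (T0 := C + 500 * Real.log ((k1 + k2 : ℕ) : ℝ) + 60 * me)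
    (by linarith) (by linarith) (m := me) (by linarith) hh hhme (by omega) hk2 (by omega) ?_ hb hb'
    ρ φ hφ1 hφ) (hcl k1 k2 b h _ (by omega) hk2 (by omega) hhk hk1n h2k h58 hbl hbu (by linarith) hT1
    hexp)
  intro s hs
  have h2 : n0 ≤ k2 := by omega
  have h3 := abs_le.1 (hs.trans (hn0 k2 h2))
  have h4 : 9 * (h : ℝ) ≤ 10 * h1 := by exact_mod_cast hh1
  linarith [h3.2]

end Pool.Agent.K7.H57.TD
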