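import Pool.Agent.K7.H57.TD.HF2

set_option autoImplicit false

/-!
# Job HF, part 3: the closing inequality
-/

namespace Pool.Agent.K7.H57.TD

open Finset Pool.Agent.K7.H66.TD

theorem part_sqrt {k2 b : ℕ} {H : ℝ} (hk2 : 1 ≤ k2) (hH : 1 ≤ H) (h1 : (k2 : ℝ) ≤ 2 * H)
    (hb : (2 : ℝ) ^ b ≤ H ^ (1 / 25 : ℝ)) :
    (2 * Real.sqrt (k2 * Real.log k2) + 1) *
      Real.sqrt (2 * 2 ^ k2 / Real.sqrt k2 * 2 ^ (k2 + b + 1)) ≤ 60 * 2 ^ k2 * H ^ (0.28 : ℝ) := by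
  have hk : (1 : ℝ) ≤ k2 := by exact_mod_cast hk2
  have hk0 : (0 : ℝ) < k2 := by linarith
  have hlog : 0 ≤ Real.log k2 := Real.log_nonneg hk
  have hlog2 : Real.log k2 ≤ 50 * (k2 : ℝ) ^ (1 / 50 : ℝ) := by
    have h3 := Real.log_le_rpow_div (x := (k2 : ℝ)) (ε := 1 / 50) (by positivity) (by norm_num)
    rw [div_eq_mul_inv] at h3
    norm_num at h3 ⊢
    linarith
  set l : ℝ := Real.sqrt (k2 * Real.log k2) with hl
  have hl0 : 0 ≤ l := Real.sqrt_nonneg _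
  have hl2 : l ^ 2 = k2 * Real.log k2 := Real.sq_sqrt (by positivity)
  have hk51 : (1 : ℝ) ≤ (k2 : ℝ) ^ (1.02 : ℝ) := Real.one_le_rpow hk (by norm_num)
  have e1 : (k2 : ℝ) * (k2 : ℝ) ^ (1 / 50 : ℝ) = (k2 : ℝ) ^ (1.02 : ℝ) := by
    rw [mul_comm, ← Real.rpow_add_one hk0.ne']
    norm_num
  have hl3 : (2 * l + 1) ^ 2 ≤ 402 * (k2 : ℝ) ^ (1.02 : ℝ) := by
    have h2 : l ^ 2 ≤ 50 * (k2 : ℝ) ^ (1.02 : ℝ) := by
      rw [hl2, ← e1]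
      nlinarith
    nlinarith [sq_nonneg (2 * l - 1)]
  have e2 : Real.sqrt (2 * 2 ^ k2 / Real.sqrt k2 * 2 ^ (k2 + b + 1)) =
      2 * 2 ^ k2 * Real.sqrt (2 ^ b / Real.sqrt k2) := by
    rw [show (2 * 2 ^ k2 / Real.sqrt k2 * 2 ^ (k2 + b + 1) : ℝ) =
      (2 * 2 ^ k2) ^ 2 * (2 ^ b / Real.sqrt k2) from by
        rw [pow_add, pow_add]
        ring, Real.sqrt_mul (by positivity), Real.sqrt_sq (by positivity)]
  have h3 : (2 * l + 1) * Real.sqrt (2 ^ b / Real.sqrt k2) ≤ 30 * H ^ (0.28 : ℝ) := by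
    rw [← Real.sqrt_sq (by positivity : 0 ≤ (2 * l + 1)), ← Real.sqrt_mul (by positivity)]
    rw [Real.sqrt_le_left (by positivity), mul_pow, ← Real.rpow_natCast (H ^ (0.28 : ℝ)),
      ← Real.rpow_mul (by linarith)]
    have e3 : (k2 : ℝ) ^ (1.02 : ℝ) / Real.sqrt k2 = (k2 : ℝ) ^ (0.52 : ℝ) := by
      rw [Real.sqrt_eq_rpow, ← Real.rpow_sub hk0]
      norm_num
    have h4 : (k2 : ℝ) ^ (0.52 : ℝ) ≤ 2 * H ^ (0.52 : ℝ) := by
      calc (k2 : ℝ) ^ (0.52 : ℝ) ≤ (2 * H) ^ (0.52 : ℝ) :=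
            Real.rpow_le_rpow (by positivity) h1 (by norm_num)
        _ = 2 ^ (0.52 : ℝ) * H ^ (0.52 : ℝ) := Real.mul_rpow (by norm_num) (by linarith)
        _ ≤ 2 ^ (1 : ℝ) * H ^ (0.52 : ℝ) := by
            refine mul_le_mul_of_nonneg_right ?_ (by positivity)
            exact Real.rpow_le_rpow_of_exponent_le (by norm_num) (by norm_num)
        _ = 2 * H ^ (0.52 : ℝ) := by rw [Real.rpow_one]
    have hH0 : 0 < H := by linarith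
    have e5 : H ^ (0.52 : ℝ) * H ^ (1 / 25 : ℝ) = H ^ (0.28 * ((2 : ℕ) : ℝ) : ℝ) := by
      rw [← Real.rpow_add hH0]
      norm_num
    have hp : 0 ≤ H ^ (0.52 : ℝ) := by positivity
    calc (2 * l + 1) ^ 2 * (2 ^ b / Real.sqrt k2) ≤
          402 * (k2 : ℝ) ^ (1.02 : ℝ) * (H ^ (1 / 25 : ℝ) / Real.sqrt k2) := by gcongr
      _ = 402 * ((k2 : ℝ) ^ (1.02 : ℝ) / Real.sqrt k2) * H ^ (1 / 25 : ℝ) := by ring
      _ ≤ 402 * (2 * H ^ (0.52 : ℝ)) * H ^ (1 / 25 : ℝ) := by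
          rw [e3]
          gcongr
      _ = 804 * H ^ (0.28 * ((2 : ℕ) : ℝ) : ℝ) := by
          rw [← e5]
          ring
      _ ≤ 30 ^ 2 * H ^ (0.28 * ((2 : ℕ) : ℝ) : ℝ) := by
          refine mul_le_mul_of_nonneg_right (by norm_num) (by positivity)
  rw [e2]
  calc (2 * l + 1) * (2 * 2 ^ k2 * Real.sqrt (2 ^ b / Real.sqrt k2)) =
        2 * 2 ^ k2 * ((2 * l + 1) * Real.sqrt (2 ^ b / Real.sqrt k2)) := by ring
    _ ≤ 2 * 2 ^ k2 * (30 * H ^ (0.28 : ℝ)) := by gcongr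
    _ = 60 * 2 ^ k2 * H ^ (0.28 : ℝ) := by ring

theorem closing : Closing := by
  intro K1 hK1
  refine ⟨132 + 24 + 360 * (140 * K1) ^ (0.34 : ℝ) + 300, by positivity, ?_⟩
  intro k1 k2 b h T0 hk1 hk2 hh hhk h3 hh2 h5 hb hb' hT hT1 hexp
  have hH : (1 : ℝ) ≤ h := by exact_mod_cast hh
  have hk1r : (1 : ℝ) ≤ k1 := by exact_mod_cast hk1
  have hk2r : (1 : ℝ) ≤ k2 := by exact_mod_cast hk2
  set k : ℝ := ((k1 + k2 : ℕ) : ℝ) with hk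
  have hhk' : (h : ℝ) ≤ k := by rw [hk]; exact_mod_cast hhk
  have hk0 : 0 < k := by linarith
  have h3' : 3 * k ≤ 20 * k1 := by rw [hk]; exact_mod_cast h3
  have h5' : 5 * (k2 : ℝ) ≤ 8 * h := by exact_mod_cast h5
  have hh2' : (h : ℝ) ≤ 2 * k2 := by exact_mod_cast hh2
  set H : ℝ := (h : ℝ) with hHdef
  have hH0 : 0 < H := by linarith
  have hpk1 : (0 : ℝ) < 2 ^ k1 := by positivity
  have hpk2 : (0 : ℝ) < 2 ^ k2 := by positivity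
  -- the bound for `M0`
  have hM0 : 2 * 2 ^ k1 / Real.sqrt k1 ≤ 6 * 2 ^ k1 / Real.sqrt k := by
    rw [div_le_div_iff₀ (by positivity) (by positivity)]
    have h6 : Real.sqrt k ≤ 3 * Real.sqrt k1 := by
      rw [Real.sqrt_le_left (by positivity), mul_pow, Real.sq_sqrt (by positivity)]
      linarith
    nlinarith
  -- part 1
  have hs2 : H ^ (1 / 50 : ℝ) ≤ 2 * Real.sqrt (2 ^ b) := by
    have e1 : H ^ (1 / 50 : ℝ) = Real.sqrt (H ^ (1 / 25 : ℝ)) := by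
      rw [Real.sqrt_eq_rpow, ← Real.rpow_mul hH0.le]
      norm_num
    rw [e1, Real.sqrt_le_left (by positivity), mul_pow, Real.sq_sqrt (by positivity)]
    refine hb'.trans ?_
    rw [pow_succ]
    have : (0 : ℝ) < 2 ^ b := by positivity
    linarith
  have hneg : H ^ (-(1 / 50) : ℝ) = (H ^ (1 / 50 : ℝ))⁻¹ := Real.rpow_neg hH0.le _
  have hHp : 0 < H ^ (1 / 50 : ℝ) := by positivity
  have hHn : 0 < H ^ (-(1 / 50) : ℝ) := by positivity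
  have hp1 : 11 * 2 ^ k2 / Real.sqrt (2 ^ b) ≤ 22 * 2 ^ k2 * H ^ (-(1 / 50) : ℝ) := by
    rw [hneg, ← div_eq_mul_inv, div_le_div_iff₀ (by positivity) hHp]
    nlinarith
  have hp2 : 2 * 2 ^ k2 / (k2 : ℝ) ^ 2 ≤ 4 * 2 ^ k2 * H ^ (-(1 / 50) : ℝ) := by
    have h6 : H ^ (1 / 50 : ℝ) ≤ H := by
      calc H ^ (1 / 50 : ℝ) ≤ H ^ (1 : ℝ) := Real.rpow_le_rpow_of_exponent_le hH (by norm_num)
        _ = H := Real.rpow_one H
    rw [hneg, ← div_eq_mul_inv, div_le_div_iff₀ (by positivity) hHp]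
    have h7 : H ^ (1 / 50 : ℝ) ≤ 2 * (k2 : ℝ) ^ 2 := by nlinarith
    nlinarith
  -- part 3
  have hp3 := part_sqrt (k2 := k2) (b := b) hk2 hH (by linarith) hb
  have hA : (140 * T0 / H) ^ (0.34 : ℝ) ≤ (140 * K1) ^ (0.34 : ℝ) * H ^ (-(0.323) : ℝ) := by
    have e1 : H ^ (-(0.323) : ℝ) = (H ^ (-(19 / 20) : ℝ)) ^ (0.34 : ℝ) := by
      rw [← Real.rpow_mul hH0.le]
      norm_num
    rw [e1, ← Real.mul_rpow (by positivity) (by positivity)]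
    refine Real.rpow_le_rpow (by positivity) ?_ (by norm_num)
    have e2 : H ^ (-(19 / 20) : ℝ) = H ^ (1 / 20 : ℝ) / H := by
      rw [← Real.rpow_sub_one hH0.ne']
      norm_num
    rw [e2, div_le_iff₀ hH0]
    calc 140 * T0 ≤ 140 * (K1 * H ^ (1 / 20 : ℝ)) := by gcongr
      _ = 140 * K1 * (H ^ (1 / 20 : ℝ) / H) * H := by
        field_simp
  have hHm : H ^ (0.28 : ℝ) * H ^ (-(0.323) : ℝ) ≤ H ^ (-(1 / 50) : ℝ) := by
    rw [← Real.rpow_add hH0]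
    exact Real.rpow_le_rpow_of_exponent_le hH (by norm_num)
  have hHk : H ^ (0.28 : ℝ) / Real.sqrt k ≤ H ^ (-(1 / 50) : ℝ) := by
    have h6 : Real.sqrt H ≤ Real.sqrt k := Real.sqrt_le_sqrt hhk'
    calc H ^ (0.28 : ℝ) / Real.sqrt k ≤ H ^ (0.28 : ℝ) / Real.sqrt H := by gcongr
      _ = H ^ (0.28 - 1 / 2 : ℝ) := by rw [Real.sqrt_eq_rpow, ← Real.rpow_sub hH0]
      _ ≤ H ^ (-(1 / 50) : ℝ) := Real.rpow_le_rpow_of_exponent_le hH (by norm_num)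
  have hsk : Real.sqrt k * Real.sqrt k = k := Real.mul_self_sqrt hk0.le
  have hsk0 : 0 < Real.sqrt k := Real.sqrt_pos.2 hk0
  have hkk : 1 / k = 1 / Real.sqrt k / Real.sqrt k := by rw [div_div, hsk]
  have hHn' : 0 < H ^ (-(0.323) : ℝ) := by positivity
  have hH28 : 0 < H ^ (0.28 : ℝ) := by positivity
  have hK34 : 0 < (140 * K1) ^ (0.34 : ℝ) := by positivity
  have hinner : (140 * T0 / H) ^ (0.34 : ℝ) * (2 * 2 ^ k1 / Real.sqrt k1) +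
        2 ^ k1 * (5 * Real.exp (-T0 / 500)) ≤
      (140 * K1) ^ (0.34 : ℝ) * H ^ (-(0.323) : ℝ) * (6 * 2 ^ k1 / Real.sqrt k) +
        2 ^ k1 * (5 * (1 / k)) := by
    have h6 : (0 : ℝ) ≤ 2 * 2 ^ k1 / Real.sqrt k1 := by positivity
    gcongr
  have hthird : (2 * Real.sqrt (k2 * Real.log k2) + 1) *
      (Real.sqrt (2 * 2 ^ k2 / Real.sqrt k2 * 2 ^ (k2 + b + 1)) *
      ((140 * T0 / H) ^ (0.34 : ℝ) * (2 * 2 ^ k1 / Real.sqrt k1) +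
        2 ^ k1 * (5 * Real.exp (-T0 / 500)))) ≤
      (360 * (140 * K1) ^ (0.34 : ℝ) + 300) * (2 ^ k1 * 2 ^ k2) / Real.sqrt k * H ^ (-(1 / 50) : ℝ) := by
    rw [← mul_assoc]
    calc (2 * Real.sqrt (k2 * Real.log k2) + 1) *
          Real.sqrt (2 * 2 ^ k2 / Real.sqrt k2 * 2 ^ (k2 + b + 1)) *
          ((140 * T0 / H) ^ (0.34 : ℝ) * (2 * 2 ^ k1 / Real.sqrt k1) +
          2 ^ k1 * (5 * Real.exp (-T0 / 500))) ≤
        (60 * 2 ^ k2 * H ^ (0.28 : ℝ)) *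
          ((140 * K1) ^ (0.34 : ℝ) * H ^ (-(0.323) : ℝ) * (6 * 2 ^ k1 / Real.sqrt k) +
          2 ^ k1 * (5 * (1 / k))) := by
          refine mul_le_mul hp3 hinner (by positivity) (by positivity)
      _ = 360 * (140 * K1) ^ (0.34 : ℝ) * (2 ^ k1 * 2 ^ k2) / Real.sqrt k *
            (H ^ (0.28 : ℝ) * H ^ (-(0.323) : ℝ)) +
          300 * (2 ^ k1 * 2 ^ k2) / Real.sqrt k * (H ^ (0.28 : ℝ) / Real.sqrt k) := by
          rw [hkk]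
          ring
      _ ≤ 360 * (140 * K1) ^ (0.34 : ℝ) * (2 ^ k1 * 2 ^ k2) / Real.sqrt k *
            H ^ (-(1 / 50) : ℝ) +
          300 * (2 ^ k1 * 2 ^ k2) / Real.sqrt k * H ^ (-(1 / 50) : ℝ) := by
          gcongr
      _ = (360 * (140 * K1) ^ (0.34 : ℝ) + 300) * (2 ^ k1 * 2 ^ k2) / Real.sqrt k *
            H ^ (-(1 / 50) : ℝ) := by ring
  have hfirst : (11 * 2 ^ k2 / Real.sqrt (2 ^ b) + 2 * 2 ^ k2 / (k2 : ℝ) ^ 2) *
      (2 * 2 ^ k1 / Real.sqrt k1) ≤ (132 + 24) * (2 ^ k1 * 2 ^ k2) / Real.sqrt k * H ^ (-(1 / 50) : ℝ) := by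
    calc (11 * 2 ^ k2 / Real.sqrt (2 ^ b) + 2 * 2 ^ k2 / (k2 : ℝ) ^ 2) *
          (2 * 2 ^ k1 / Real.sqrt k1) ≤
          (22 * 2 ^ k2 * H ^ (-(1 / 50) : ℝ) + 4 * 2 ^ k2 * H ^ (-(1 / 50) : ℝ)) *
          (6 * 2 ^ k1 / Real.sqrt k) := by
          refine mul_le_mul (add_le_add hp1 hp2) hM0 (by positivity) (by positivity)
      _ = (132 + 24) * (2 ^ k1 * 2 ^ k2) / Real.sqrt k * H ^ (-(1 / 50) : ℝ) := by ring
  rw [LHS]
  refine (add_le_add hfirst hthird).trans (le_of_eq ?_)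
  rw [pow_add]
  ring

theorem hf (hW : StW) (hG : StG) (hL : StL) (hT : StTail) (hC : StCen) : StHF :=
  hf_of_closing closing hW hG hL hT hC

end Pool.Agent.K7.H57.TD
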